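import Mathlib
import Pool.Agent.Helper829.TDom2

set_option autoImplicit false

namespace Pool.Agent.Results.MP_59216f_co.ThreeFactor

/-- The connected case. -/
theorem cubic_connected (V : Type) [Fintype V] [DecidableEq V] (G : SimpleGraph V)
    [DecidableRel G.Adj] (hconn : G.Connected) (hreg : G.IsRegularOfDegree 3) :
    ∃ S : Finset V, (∀ v : V, ∃ u ∈ S, G.Adj v u) ∧ 2 * S.card ≤ Fintype.card V ∧
      ∃ D : Finset V, Disjoint D S ∧ ∀ v : V, v ∈ D ∨ ∃ u ∈ D, G.Adj v u := by
  by_cases h : ∃ C : Finset V, Pool.Agent.Helper829.TDom.bd G C = 1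
  · exact Pool.Agent.Helper829.TDom.case_bridge G hconn hreg h
  · push Not at h
    exact Pool.Agent.Helper829.TDom.case_pm G hconn hreg h

/-- Every finite graph `G` that has a spanning cubic subgraph `H` has a total dominating set `S`
with at most half of the vertices and a dominating set `D` disjoint from `S`. -/
theorem result (V : Type) [Fintype V] [DecidableEq V] (G H : SimpleGraph V)
    [DecidableRel H.Adj] (hHG : H ≤ G) (hreg : H.IsRegularOfDegree 3) :
    ∃ S D : Finset V,
      (∀ v : V, ∃ u ∈ S, G.Adj v u) ∧
      2 * S.card ≤ Fintype.card V ∧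
      Disjoint S D ∧
      (∀ v : V, v ∈ D ∨ ∃ u ∈ D, G.Adj v u) := by
  classical
  -- solve every component
  have hcomp : ∀ C : H.ConnectedComponent, ∃ S : Finset C.supp,
      (∀ v : C.supp, ∃ u ∈ S, H.Adj v.1 u.1) ∧ 2 * S.card ≤ Fintype.card C.supp ∧
      ∃ D : Finset C.supp, Disjoint D S ∧ ∀ v : C.supp, v ∈ D ∨ ∃ u ∈ D, H.Adj v.1 u.1 := by
    intro C
    have hconn : (H.induce C.supp).Connected := C.connected_toSimpleGraph
    have hreg' : (H.induce C.supp).IsRegularOfDegree 3 := by
      intro v
      rw [← hreg v.1, ← SimpleGraph.card_neighborFinset_eq_degree,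
        ← SimpleGraph.card_neighborFinset_eq_degree,
        ← Finset.card_map (Function.Embedding.subtype _)]
      congr 1
      ext x
      simp only [Finset.mem_map, SimpleGraph.mem_neighborFinset, Function.Embedding.coe_subtype,
        SimpleGraph.comap_adj, Subtype.exists, exists_and_left, exists_prop, exists_eq_right_right]
      constructor
      · rintro ⟨h, _⟩; exact h
      · intro h
        refine ⟨h, ?_⟩
        have hv := v.2
        rw [SimpleGraph.ConnectedComponent.mem_supp_iff] at hv ⊢
        rw [← hv]
        exact (SimpleGraph.ConnectedComponent.connectedComponentMk_eq_of_adj h).symm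
    obtain ⟨S, h1, h2, D, h3, h4⟩ := cubic_connected C.supp (H.induce C.supp) hconn hreg'
    exact ⟨S, h1, h2, D, h3, h4⟩
  choose S hS1 hS2 D hD1 hD2 using hcomp
  have mem_of : ∀ v : V, v ∈ (H.connectedComponentMk v).supp := fun v => rfl
  refine ⟨Finset.univ.filter (fun v => (⟨v, mem_of v⟩ : (H.connectedComponentMk v).supp) ∈
      S (H.connectedComponentMk v)),
    Finset.univ.filter (fun v => (⟨v, mem_of v⟩ : (H.connectedComponentMk v).supp) ∈
      D (H.connectedComponentMk v)), ?_, ?_, ?_, ?_⟩
  · intro v
    obtain ⟨u, hu, hadj⟩ := hS1 (H.connectedComponentMk v) ⟨v, mem_of v⟩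
    refine ⟨u.1, ?_, hHG hadj⟩
    rw [Finset.mem_filter]
    refine ⟨Finset.mem_univ _, ?_⟩
    have hu2 : H.connectedComponentMk u.1 = H.connectedComponentMk v := u.2
    have key : ∀ C : H.ConnectedComponent, ∀ hC : H.connectedComponentMk u.1 = C,
        ∀ hm : u.1 ∈ C.supp, (⟨u.1, hm⟩ : C.supp) ∈ S C →
        (⟨u.1, mem_of u.1⟩ : (H.connectedComponentMk u.1).supp) ∈ S (H.connectedComponentMk u.1) := by
      rintro C rfl hm h; exact h
    exact key _ hu2 u.2 hu
  · have hcard : (Finset.univ.filter (fun v =>
        (⟨v, mem_of v⟩ : (H.connectedComponentMk v).supp) ∈ S (H.connectedComponentMk v))).card =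
        ∑ C : H.ConnectedComponent, (S C).card := by
      rw [Finset.card_eq_sum_card_fiberwise (f := fun v => H.connectedComponentMk v)
        (t := Finset.univ) (by intro x _; exact Finset.mem_coe.2 (Finset.mem_univ _))]
      apply Finset.sum_congr rfl
      intro C _
      rw [← Finset.card_map (Function.Embedding.subtype _) (s := S C)]
      congr 1
      ext x
      simp only [Finset.mem_filter, Finset.mem_univ, true_and, Finset.mem_map,
        Function.Embedding.coe_subtype, Subtype.exists, exists_and_right, exists_eq_right]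
      constructor
      · rintro ⟨h, rfl⟩; exact ⟨mem_of x, h⟩
      · rintro ⟨hm, h⟩
        have hx : H.connectedComponentMk x = C := hm
        subst hx
        exact ⟨h, rfl⟩
    have hV : Fintype.card V = ∑ C : H.ConnectedComponent, Fintype.card C.supp := by
      rw [← Finset.card_univ, Finset.card_eq_sum_card_fiberwise
        (f := fun v => H.connectedComponentMk v) (t := Finset.univ)
        (by intro x _; exact Finset.mem_coe.2 (Finset.mem_univ _))]
      apply Finset.sum_congr rfl
      intro C _
      rw [Fintype.card_subtype]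
      congr 1
      ext x
      simp only [Finset.mem_filter, Finset.mem_univ, true_and,
        SimpleGraph.ConnectedComponent.mem_supp_iff]
    rw [hcard, hV, Finset.mul_sum]
    exact Finset.sum_le_sum (fun C _ => hS2 C)
  · rw [Finset.disjoint_left]
    intro v hv hv'
    rw [Finset.mem_filter] at hv hv'
    exact (Finset.disjoint_left.1 (hD1 _)) hv'.2 hv.2
  · intro v
    rcases hD2 (H.connectedComponentMk v) ⟨v, mem_of v⟩ with h | ⟨u, hu, hadj⟩
    · left
      rw [Finset.mem_filter]
      exact ⟨Finset.mem_univ _, h⟩
    · right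
      refine ⟨u.1, ?_, hHG hadj⟩
      rw [Finset.mem_filter]
      refine ⟨Finset.mem_univ _, ?_⟩
      have hu2 : H.connectedComponentMk u.1 = H.connectedComponentMk v := u.2
      have key : ∀ C : H.ConnectedComponent, ∀ hC : H.connectedComponentMk u.1 = C,
          ∀ hm : u.1 ∈ C.supp, (⟨u.1, hm⟩ : C.supp) ∈ D C →
          (⟨u.1, mem_of u.1⟩ : (H.connectedComponentMk u.1).supp) ∈
            D (H.connectedComponentMk u.1) := by
        rintro C rfl hm h; exact h
      exact key _ hu2 u.2 hu

end Pool.Agent.Results.MP_59216f_co.ThreeFactor
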